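import Pool.Agent.UMG.StmtsA

set_option autoImplicit false

namespace Pool.Agent.UMG.A.H59

open Finset Pool.Agent.UMG

theorem E_zero (w : ℕ → ℝ) : E w 0 = 1 := by
  rw [E]

theorem E_rec (w : ℕ → ℝ) (n : ℕ) :
    ((n : ℝ) + 1) * E w (n + 1) = ∑ i ∈ range (n + 1), w (i + 1) * E w (n - i) := by
  have h : E w (n + 1) =
      ((1 : ℚ) / ((n : ℚ) + 1)) • ∑ i ∈ range (n + 1), w (i + 1) * E w (n - i) := by
    rw [E]
  rw [h, Algebra.smul_def]
  have h1 : (n : ℝ) + 1 ≠ 0 := by positivity
  simp only [eq_ratCast, Rat.cast_div, Rat.cast_one, Rat.cast_add, Rat.cast_natCast]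
  field_simp

theorem E_nonneg (w : ℕ → ℝ) (hw : ∀ l, 0 ≤ w l) (n : ℕ) : 0 ≤ E w n := by
  induction n using Nat.strong_induction_on with
  | _ n ih =>
    cases n with
    | zero =>
      rw [E_zero]
      norm_num
    | succ n =>
      have h := E_rec w n
      have h1 : 0 ≤ ∑ i ∈ range (n + 1), w (i + 1) * E w (n - i) := by
        apply Finset.sum_nonneg
        intro i hi
        exact mul_nonneg (hw _) (ih _ (by omega))
      rw [← h] at h1
      exact nonneg_of_mul_nonneg_right h1 (by positivity)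

theorem exp : ExpStmt := by
  intro w n t hw ht
  have he := E_nonneg w hw
  -- the exponent
  have hP : ∀ s : ℝ, ∑ l ∈ Icc 1 n, w l * s ^ l / l =
      ∑ i ∈ range n, w (i + 1) * s ^ (i + 1) / ((i : ℝ) + 1) := by
    intro s
    have h1 : Icc 1 n = Ico 1 (n + 1) := by
      ext l
      simp only [mem_Icc, mem_Ico]
      omega
    rw [h1, Finset.sum_Ico_eq_sum_range]
    refine Finset.sum_congr (by simp) ?_
    intro i _
    rw [add_comm 1 i]
    push_cast
    rfl
  rw [hP]
  let f : ℝ → ℝ := fun s => ∑ r ∈ range (n + 1), E w r * s ^ r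
  let P : ℝ → ℝ := fun s => ∑ i ∈ range n, w (i + 1) * s ^ (i + 1) / ((i : ℝ) + 1)
  let f' : ℝ → ℝ := fun s => ∑ r ∈ range (n + 1), E w r * ((r : ℝ) * s ^ (r - 1))
  let P' : ℝ → ℝ := fun s => ∑ i ∈ range n, w (i + 1) * s ^ i
  have hf : ∀ s, HasDerivAt f (f' s) s := by
    intro s
    apply HasDerivAt.fun_sum
    intro r _
    exact (hasDerivAt_pow r s).const_mul _
  have hPd : ∀ s, HasDerivAt P (P' s) s := by
    intro s
    apply HasDerivAt.fun_sum
    intro i _
    have h1 := ((hasDerivAt_pow (i + 1) s).const_mul (w (i + 1))).div_const ((i : ℝ) + 1)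
    have h2 : w (i + 1) * (((i + 1 : ℕ) : ℝ) * s ^ (i + 1 - 1)) / ((i : ℝ) + 1) =
        w (i + 1) * s ^ i := by
      have h3 : (i : ℝ) + 1 ≠ 0 := by positivity
      rw [Nat.add_sub_cancel]
      push_cast
      field_simp
    rw [h2] at h1
    exact h1
  have hkey : ∀ s, 0 ≤ s → f' s ≤ P' s * f s := by
    intro s hs
    have h1 : f' s = ∑ r ∈ range n, ∑ i ∈ range (r + 1),
        (fun i j => w (i + 1) * E w j * s ^ (i + j)) i (r - i) := by
      show ∑ r ∈ range (n + 1), E w r * ((r : ℝ) * s ^ (r - 1)) = _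
      rw [Finset.sum_range_succ']
      simp only [Nat.cast_zero, zero_mul, mul_zero, add_zero, Nat.add_sub_cancel]
      refine Finset.sum_congr rfl ?_
      intro r _
      have h2 := E_rec w r
      have h3 : E w (r + 1) * (((r + 1 : ℕ) : ℝ) * s ^ r) =
          (((r : ℝ) + 1) * E w (r + 1)) * s ^ r := by
        push_cast
        ring
      rw [h3, h2, Finset.sum_mul]
      refine Finset.sum_congr rfl ?_
      intro i hi
      have h4 : i + (r - i) = r := by
        have := Finset.mem_range.1 hi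
        omega
      rw [h4]
    rw [h1, Finset.sum_range_diag_flip n (fun i j => w (i + 1) * E w j * s ^ (i + j))]
    show _ ≤ (∑ i ∈ range n, w (i + 1) * s ^ i) * ∑ r ∈ range (n + 1), E w r * s ^ r
    rw [Finset.sum_mul]
    refine Finset.sum_le_sum ?_
    intro i _
    rw [Finset.mul_sum]
    calc ∑ j ∈ range (n - i), w (i + 1) * E w j * s ^ (i + j)
        ≤ ∑ j ∈ range (n + 1), w (i + 1) * E w j * s ^ (i + j) := by
          refine Finset.sum_le_sum_of_subset_of_nonneg ?_ ?_
          · intro j hj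
            rw [Finset.mem_range] at hj ⊢
            omega
          · intro j _ _
            exact mul_nonneg (mul_nonneg (hw _) (he _)) (pow_nonneg hs _)
      _ = ∑ j ∈ range (n + 1), w (i + 1) * s ^ i * (E w j * s ^ j) := by
          refine Finset.sum_congr rfl ?_
          intro j _
          rw [pow_add]
          ring
  let g : ℝ → ℝ := fun s => f s * Real.exp (-P s)
  have hg : ∀ s, HasDerivAt g (f' s * Real.exp (-P s) + f s * (Real.exp (-P s) * (-P' s))) s := by
    intro s
    exact (hf s).mul ((hPd s).neg.exp)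
  have hanti : AntitoneOn g (Set.Ici 0) := by
    refine antitoneOn_of_deriv_nonpos (convex_Ici 0) ?_ ?_ ?_
    · intro s _
      exact (hg s).continuousAt.continuousWithinAt
    · intro s _
      exact (hg s).differentiableAt.differentiableWithinAt
    · intro s hs
      rw [interior_Ici, Set.mem_Ioi] at hs
      rw [(hg s).deriv]
      have h1 := hkey s hs.le
      have h2 : f' s * Real.exp (-P s) + f s * (Real.exp (-P s) * (-P' s)) =
          (f' s - P' s * f s) * Real.exp (-P s) := by ring
      rw [h2]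
      exact mul_nonpos_of_nonpos_of_nonneg (by linarith) (Real.exp_pos _).le
  have h0 : g 0 = 1 := by
    have h1 : f 0 = 1 := by
      show ∑ r ∈ range (n + 1), E w r * (0 : ℝ) ^ r = 1
      rw [Finset.sum_range_succ', pow_zero, mul_one, E_zero]
      have h2 : ∑ r ∈ range n, E w (r + 1) * (0 : ℝ) ^ (r + 1) = 0 := by
        apply Finset.sum_eq_zero
        intro r _
        rw [zero_pow (by omega), mul_zero]
      rw [h2, zero_add]
    have h2 : P 0 = 0 := by
      show ∑ i ∈ range n, w (i + 1) * (0 : ℝ) ^ (i + 1) / ((i : ℝ) + 1) = 0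
      apply Finset.sum_eq_zero
      intro i _
      rw [zero_pow (by omega), mul_zero, zero_div]
    show f 0 * Real.exp (-P 0) = 1
    rw [h1, h2, neg_zero, Real.exp_zero, mul_one]
  have h1 : g t ≤ g 0 := hanti (Set.mem_Ici.2 le_rfl) (Set.mem_Ici.2 ht) ht
  rw [h0] at h1
  have h2 : f t = g t * Real.exp (P t) := by
    show f t = f t * Real.exp (-P t) * Real.exp (P t)
    rw [mul_assoc, ← Real.exp_add, neg_add_cancel, Real.exp_zero, mul_one]
  show f t ≤ Real.exp (P t)
  rw [h2]
  calc g t * Real.exp (P t) ≤ 1 * Real.exp (P t) :=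
        mul_le_mul_of_nonneg_right h1 (Real.exp_pos _).le
    _ = Real.exp (P t) := one_mul _

end Pool.Agent.UMG.A.H59
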