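import Pool.Agent.UMG.StmtsA

set_option autoImplicit false

namespace Pool.Agent.UMG.A.H59

open Finset Pool.Agent.UMG

theorem geo2 {q : ℝ} (h0 : 0 ≤ q) (h1 : q ≤ 1 / 2) (N : ℕ) :
    ∑ l ∈ Icc 2 N, q ^ (l - 1) ≤ 2 * q := by
  have key : ∀ m : ℕ, ∑ l ∈ Ico 2 (2 + m), q ^ (l - 1) ≤ 2 * q - 2 * q ^ (m + 1) := by
    intro m
    induction m with
    | zero => simp
    | succ m ih =>
      have e : 2 + (m + 1) = (2 + m) + 1 := by ring
      rw [e, Finset.sum_Ico_succ_top (by omega)]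
      have e2 : 2 + m - 1 = m + 1 := by omega
      rw [e2]
      have h2 : q ^ (m + 1 + 1) ≤ 1 / 2 * q ^ (m + 1) := by
        rw [pow_succ, mul_comm]
        exact mul_le_mul_of_nonneg_right h1 (pow_nonneg h0 _)
      linarith
  rcases Nat.lt_or_ge N 2 with h | h
  · rw [Finset.Icc_eq_empty (by omega), Finset.sum_empty]
    linarith
  · have e : Icc 2 N = Ico 2 (2 + (N - 1)) := by
      ext l
      simp only [mem_Icc, mem_Ico]
      omega
    rw [e]
    have h2 := key (N - 1)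
    have h3 : 0 ≤ q ^ (N - 1 + 1) := pow_nonneg h0 _
    linarith

theorem geo3 {q : ℝ} (h0 : 0 ≤ q) (h1 : q ≤ 1 / 2) (N : ℕ) :
    ∑ l ∈ Icc 2 N, (if l = 2 then 0 else q ^ (l - 1)) ≤ 2 * q ^ 2 := by
  have e : ∑ l ∈ Icc 2 N, (if l = 2 then 0 else q ^ (l - 1)) ≤
      q * ∑ l ∈ Icc 2 (N - 1), q ^ (l - 1) := by
    rcases Nat.lt_or_ge N 3 with h | h
    · have h2 : ∑ l ∈ Icc 2 N, (if l = 2 then (0 : ℝ) else q ^ (l - 1)) = 0 := by
        apply Finset.sum_eq_zero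
        intro l hl
        rw [mem_Icc] at hl
        rw [if_pos (by omega)]
      rw [h2]
      exact mul_nonneg h0 (Finset.sum_nonneg fun _ _ => pow_nonneg h0 _)
    · have h2 : Icc 2 N = insert 2 (Icc 3 N) := by
        ext l
        simp only [mem_Icc, mem_insert]
        omega
      rw [h2, Finset.sum_insert (by simp), if_pos rfl, zero_add, Finset.mul_sum]
      have h3 : Icc 3 N = (Icc 2 (N - 1)).image (fun l => l + 1) := by
        ext l
        simp only [mem_Icc, mem_image]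
        constructor
        · intro h
          exact ⟨l - 1, by omega, by omega⟩
        · rintro ⟨m, h, rfl⟩
          omega
      rw [h3, Finset.sum_image (fun x _ y _ h => by omega)]
      refine le_of_eq (Finset.sum_congr rfl ?_)
      intro l hl
      rw [mem_Icc] at hl
      rw [if_neg (by omega), ← pow_succ']
      congr 1
      omega
  have h2 := geo2 h0 h1 (N - 1)
  calc _ ≤ q * ∑ l ∈ Icc 2 (N - 1), q ^ (l - 1) := e
    _ ≤ q * (2 * q) := mul_le_mul_of_nonneg_left h2 h0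
    _ = 2 * q ^ 2 := by ring

theorem qk_nonneg (M k : ℕ) : 0 ≤ qk M k := by
  unfold qk
  positivity

theorem sec (hTRM : TrmStmt) (hQKS : QksStmt) : SecStmt := by
  intro η K hη hη2
  obtain ⟨M0, hM0⟩ := hQKS η K hη hη2
  obtain ⟨a, ha⟩ : ∃ a : ℝ, a = ((K : ℝ) + 1) * Real.exp 1 := ⟨_, rfl⟩
  have ha0 : 0 ≤ a := by
    rw [ha]
    positivity
  refine ⟨2 + 48 * a ^ 4 * Real.exp 1 ^ 4 + 72 * a ^ 3 * Real.exp 1 ^ 6 +
    12 * a ^ 3 * Real.exp 1 ^ 3, max M0 1, ?_⟩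
  intro d x hgood hMd hF
  obtain ⟨M, hM⟩ : ∃ M : ℕ, M = d.sum := ⟨_, rfl⟩
  unfold Good at hgood
  rw [← hM] at hgood hMd hF ⊢
  obtain ⟨hq, hs⟩ := hM0 M ((le_max_left _ _).trans hMd)
  have hM1 : 1 ≤ M := (le_max_right _ _).trans hMd
  have hM1' : (1 : ℝ) ≤ M := by exact_mod_cast hM1
  rw [← ha] at hs
  have hsq : (1 : ℝ) ≤ Real.sqrt M := by
    rw [Real.one_le_sqrt]
    exact hM1'
  have hsq0 : (0 : ℝ) < Real.sqrt M := by linarith
  have hsqM : Real.sqrt M ^ 2 = M := Real.sq_sqrt (by positivity)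
  -- facts on the degrees
  have hk3 : ∀ k ∈ d.toFinset, 3 ≤ k := fun k hk => (hgood.1 k (List.mem_toFinset.1 hk)).1
  have hkr : ∀ k ∈ d.toFinset, (k : ℝ) ≤ (M : ℝ) ^ (1 / 2 - η) :=
    fun k hk => (hgood.1 k (List.mem_toFinset.1 hk)).2
  have hks : ∀ k ∈ d.toFinset, (k : ℝ) ≤ Real.sqrt M := by
    intro k hk
    refine (hkr k hk).trans ?_
    rw [Real.sqrt_eq_rpow]
    exact Real.rpow_le_rpow_of_exponent_le hM1' (by linarith)
  have hkM : ∀ k ∈ d.toFinset, k ≤ M := by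
    intro k hk
    rw [hM]
    exact List.le_sum_of_mem (List.mem_toFinset.1 hk)
  -- the single terms
  have hT : ∀ k ∈ d.toFinset, ∀ l ∈ Icc 2 (d.count k),
      hh x l k * ((d.count k : ℝ) * (k.factorial : ℝ) / x 1 ^ k) ^ l / l ≤
        a ^ k * M * qk M k ^ (l - 1) := by
    intro k hk l hl
    rw [mem_Icc] at hl
    rw [ha, hM]
    have h3 := hk3 k hk
    refine hTRM K x d k l ?_ ?_ (by omega) ?_ hl.1 hl.2
    · rw [← hM]
      exact hF
    · omega
    · rw [← hM]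
      exact hks k hk
  have hS : ∀ k ∈ d.toFinset, ∑ l ∈ Icc 2 (d.count k),
      hh x l k * ((d.count k : ℝ) * (k.factorial : ℝ) / x 1 ^ k) ^ l / l ≤
        2 * (a ^ k * M * qk M k) := by
    intro k hk
    calc _ ≤ ∑ l ∈ Icc 2 (d.count k), a ^ k * M * qk M k ^ (l - 1) :=
          Finset.sum_le_sum (hT k hk)
      _ = a ^ k * M * ∑ l ∈ Icc 2 (d.count k), qk M k ^ (l - 1) := by rw [Finset.mul_sum]
      _ ≤ a ^ k * M * (2 * qk M k) :=
          mul_le_mul_of_nonneg_left (geo2 (qk_nonneg M k) (hq k (hk3 k hk) (hkr k hk)) _)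
            (by positivity)
      _ = 2 * (a ^ k * M * qk M k) := by ring
  have hS3 : 3 ∈ d.toFinset → ∑ l ∈ Icc 2 (d.count 3), (if l = 2 ∧ (3 : ℕ) = 3 then 0 else
      hh x l 3 * ((d.count 3 : ℝ) * (Nat.factorial 3 : ℝ) / x 1 ^ 3) ^ l / l) ≤
        2 * (a ^ 3 * M * qk M 3 ^ 2) := by
    intro hk
    calc _ ≤ ∑ l ∈ Icc 2 (d.count 3), a ^ 3 * M * (if l = 2 then 0 else qk M 3 ^ (l - 1)) := by
          refine Finset.sum_le_sum ?_
          intro l hl
          by_cases h2 : l = 2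
          · rw [if_pos ⟨h2, rfl⟩, if_pos h2, mul_zero]
          · rw [if_neg (fun h => h2 h.1), if_neg h2]
            exact hT 3 hk l hl
      _ = a ^ 3 * M * ∑ l ∈ Icc 2 (d.count 3), (if l = 2 then 0 else qk M 3 ^ (l - 1)) := by
          rw [Finset.mul_sum]
      _ ≤ a ^ 3 * M * (2 * qk M 3 ^ 2) :=
          mul_le_mul_of_nonneg_left (geo3 (qk_nonneg M 3) (hq 3 le_rfl (hkr 3 hk)) _)
            (by positivity)
      _ = 2 * (a ^ 3 * M * qk M 3 ^ 2) := by ring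
  -- the subset
  have hsub : d.toFinset ⊆ insert 3 (insert 4 ((Icc 5 M).filter
      (fun k : ℕ => (k : ℝ) ≤ (M : ℝ) ^ (1 / 2 - η)))) := by
    intro k hk
    have h1 := hk3 k hk
    rw [mem_insert, mem_insert, mem_filter, mem_Icc]
    by_cases h3 : k = 3
    · exact Or.inl h3
    · by_cases h4 : k = 4
      · exact Or.inr (Or.inl h4)
      · exact Or.inr (Or.inr ⟨⟨by omega, hkM k hk⟩, hkr k hk⟩)
  have hn3 : 3 ∉ insert 4 ((Icc 5 M).filter
      (fun k : ℕ => (k : ℝ) ≤ (M : ℝ) ^ (1 / 2 - η))) := by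
    simp
  have hn4 : 4 ∉ (Icc 5 M).filter (fun k : ℕ => (k : ℝ) ≤ (M : ℝ) ^ (1 / 2 - η)) := by
    simp
  -- the values for k = 3, 4
  have hq3 : qk M 3 * Real.sqrt M = 6 * Real.exp 1 ^ 3 := by
    unfold qk
    have h6 : (Nat.factorial 3 : ℝ) = 6 := by norm_num [Nat.factorial]
    rw [h6]
    field_simp
    exact hsqM.symm
  have hq4 : qk M 4 * M = 24 * Real.exp 1 ^ 4 := by
    unfold qk
    have h6 : (Nat.factorial 4 : ℝ) = 24 := by norm_num [Nat.factorial]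
    rw [h6, show Real.sqrt M ^ 4 = (Real.sqrt M ^ 2) ^ 2 by ring, hsqM]
    field_simp
  have b4 : 2 * (a ^ 4 * M * qk M 4) = 48 * a ^ 4 * Real.exp 1 ^ 4 := by
    have : 2 * (a ^ 4 * M * qk M 4) = 2 * a ^ 4 * (qk M 4 * M) := by ring
    rw [this, hq4]
    ring
  have b3 : 2 * (a ^ 3 * M * qk M 3 ^ 2) = 72 * a ^ 3 * Real.exp 1 ^ 6 := by
    have : 2 * (a ^ 3 * M * qk M 3 ^ 2) = 2 * (a ^ 3 * Real.sqrt M ^ 2 * qk M 3 ^ 2) := by
      rw [hsqM]
    rw [this, show 2 * (a ^ 3 * Real.sqrt M ^ 2 * qk M 3 ^ 2) =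
      2 * a ^ 3 * (qk M 3 * Real.sqrt M) ^ 2 by ring, hq3]
    ring
  have b3' : 2 * (a ^ 3 * M * qk M 3) = 12 * a ^ 3 * Real.exp 1 ^ 3 * Real.sqrt M := by
    have : 2 * (a ^ 3 * M * qk M 3) = 2 * (a ^ 3 * Real.sqrt M ^ 2 * qk M 3) := by
      rw [hsqM]
    rw [this, show 2 * (a ^ 3 * Real.sqrt M ^ 2 * qk M 3) =
      2 * a ^ 3 * (qk M 3 * Real.sqrt M) * Real.sqrt M by ring, hq3]
    ring
  have hrest : ∑ k ∈ (Icc 5 M).filter (fun k : ℕ => (k : ℝ) ≤ (M : ℝ) ^ (1 / 2 - η)),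
      2 * (a ^ k * M * qk M k) ≤ 2 := by
    rw [← Finset.mul_sum]
    linarith
  have hnn : ∀ k : ℕ, 0 ≤ 2 * (a ^ k * M * qk M k) := by
    intro k
    have := qk_nonneg M k
    positivity
  have p3 : 0 ≤ 72 * a ^ 3 * Real.exp 1 ^ 6 := by positivity
  have p4 : 0 ≤ 48 * a ^ 4 * Real.exp 1 ^ 4 := by positivity
  have p5 : 0 ≤ 12 * a ^ 3 * Real.exp 1 ^ 3 := by positivity
  constructor
  · calc _ ≤ ∑ k ∈ d.toFinset, (if k = 3 then 2 * (a ^ 3 * M * qk M 3 ^ 2) else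
            2 * (a ^ k * M * qk M k)) := by
          refine Finset.sum_le_sum ?_
          intro k hk
          by_cases h3 : k = 3
          · subst h3
            rw [if_pos rfl]
            exact hS3 hk
          · rw [if_neg h3]
            refine le_trans (le_of_eq (Finset.sum_congr rfl ?_)) (hS k hk)
            intro l _
            rw [if_neg (fun h => h3 h.2)]
      _ ≤ ∑ k ∈ insert 3 (insert 4 ((Icc 5 M).filter
            (fun k : ℕ => (k : ℝ) ≤ (M : ℝ) ^ (1 / 2 - η)))),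
            (if k = 3 then 2 * (a ^ 3 * M * qk M 3 ^ 2) else 2 * (a ^ k * M * qk M k)) := by
          refine Finset.sum_le_sum_of_subset_of_nonneg hsub ?_
          intro k _ _
          split_ifs
          · rw [b3]
            exact p3
          · exact hnn k
      _ = 2 * (a ^ 3 * M * qk M 3 ^ 2) + (2 * (a ^ 4 * M * qk M 4) +
            ∑ k ∈ (Icc 5 M).filter (fun k : ℕ => (k : ℝ) ≤ (M : ℝ) ^ (1 / 2 - η)),
              2 * (a ^ k * M * qk M k)) := by
          rw [Finset.sum_insert hn3, Finset.sum_insert hn4, if_pos rfl, if_neg (by norm_num)]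
          congr 2
          refine Finset.sum_congr rfl ?_
          intro k hk
          rw [mem_filter, mem_Icc] at hk
          rw [if_neg (by omega)]
      _ ≤ _ := by
          rw [b3, b4]
          linarith
  · calc _ ≤ ∑ k ∈ d.toFinset, 2 * (a ^ k * M * qk M k) := Finset.sum_le_sum hS
      _ ≤ ∑ k ∈ insert 3 (insert 4 ((Icc 5 M).filter
            (fun k : ℕ => (k : ℝ) ≤ (M : ℝ) ^ (1 / 2 - η)))), 2 * (a ^ k * M * qk M k) :=
          Finset.sum_le_sum_of_subset_of_nonneg hsub fun k _ _ => hnn k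
      _ = 2 * (a ^ 3 * M * qk M 3) + (2 * (a ^ 4 * M * qk M 4) +
            ∑ k ∈ (Icc 5 M).filter (fun k : ℕ => (k : ℝ) ≤ (M : ℝ) ^ (1 / 2 - η)),
              2 * (a ^ k * M * qk M k)) := by
          rw [Finset.sum_insert hn3, Finset.sum_insert hn4]
      _ ≤ 12 * a ^ 3 * Real.exp 1 ^ 3 * Real.sqrt M +
            (48 * a ^ 4 * Real.exp 1 ^ 4 + 2) := by
          rw [b3', b4]
          linarith
      _ ≤ _ := by
          nlinarith [mul_nonneg p3 hsq0.le, mul_nonneg p4 (sub_nonneg.2 hsq)]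

end Pool.Agent.UMG.A.H59
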